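import Pool.Agent.Helper82.SG.St
import Pool.Agent.Helper77.ST.Final

/-!
Project SG (MP_e46579_co), module FIN: the final constants.
-/

set_option autoImplicit false

namespace Pool.Agent.Helper60.SG

open Finset Real MeasureTheory Pool.Agent.Helper77.Steiner Pool.Agent.Helper82.SG
open Pool.Agent.Helper18.GP (nlen NConn)
open scoped ENNReal

private theorem const_le : (0.669 : ℝ) ≤ √3 / (4 - √2) := by
  have h2 : (1.41 : ℝ) ≤ √2 := Real.le_sqrt_of_sq_le (by norm_num)
  have h2' : √2 ≤ 1.42 := by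
    rw [Real.sqrt_le_left (by norm_num)]
    norm_num
  have h3 : (1.7320 : ℝ) ≤ √3 := Real.le_sqrt_of_sq_le (by norm_num)
  have h2'' : (1.4142 : ℝ) ≤ √2 := Real.le_sqrt_of_sq_le (by norm_num)
  rw [le_div_iff₀ (by linarith)]
  linarith

private theorem ratio_ge (d : ℕ) : ENNReal.ofReal 0.669 ≤ steinerRatio d :=
  le_trans (ENNReal.ofReal_le_ofReal const_le) le_steinerRatioOf

private theorem grid_le_one (d M : ℕ) (hd : 2 ≤ d) (hM : 1 ≤ M) : gridRatio d M ≤ 1 := by
  classical
  obtain ⟨P, hP⟩ : ∃ P : ℕ → EuclideanSpace ℝ (Fin d),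
      P = fun c : ℕ => WithLp.toLp 2 (fun _ : Fin d => (c : ℝ)) := ⟨_, rfl⟩
  have hmem : ∀ c ≤ M, P c ∈ grid d M := by
    intro c hc
    rw [grid, Finset.mem_image]
    refine ⟨fun _ => c, ?_, by rw [hP]⟩
    rw [Fintype.mem_piFinset]
    intro i
    rw [Finset.mem_range]
    omega
  have hne : P 0 ≠ P 1 := by
    intro h
    have h1 := congrArg (fun v : EuclideanSpace ℝ (Fin d) => v ⟨0, by omega⟩) h
    simp [hP] at h1
  have hsub : ({P 0, P 1} : Finset (EuclideanSpace ℝ (Fin d))) ⊆ grid d M := by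
    intro v hv
    rw [Finset.mem_insert, Finset.mem_singleton] at hv
    rcases hv with rfl | rfl
    · exact hmem 0 (by omega)
    · exact hmem 1 hM
  have hcard : 2 ≤ ({P 0, P 1} : Finset (EuclideanSpace ℝ (Fin d))).card := by
    rw [Finset.card_pair hne]
  unfold gridRatio
  refine le_trans (iInf_le _ {P 0, P 1}) ?_
  refine le_trans (iInf_le _ {P 0, P 1}) ?_
  refine le_trans (iInf_le _ hcard) ?_
  refine le_trans (iInf_le _ (Finset.Subset.refl _)) ?_
  refine le_trans (iInf_le _ hsub) ?_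
  exact ENNReal.div_self_le_one

theorem hFIN (hLOB : StLOB) (hUPB : StUPB) : StFIN := by
  intro d M hd hdM
  have hlow := hLOB d M
  refine ⟨hlow, ?_⟩
  have h1 : gridRatio d M ≤ 1 := grid_le_one d M hd (by omega)
  have htop : gridRatio d M ≠ ⊤ := ne_top_of_le_ne_top ENNReal.one_ne_top h1
  obtain ⟨c, hc⟩ : ∃ c, c = (gridRatio d M).toReal := ⟨_, rfl⟩
  have hcr : gridRatio d M = ENNReal.ofReal c := by rw [hc, ENNReal.ofReal_toReal htop]
  have hc1 : 0.669 ≤ c := by
    rw [hc]
    exact (ENNReal.ofReal_le_iff_le_toReal htop).1 (le_trans (ratio_ge d) hlow)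
  have hM2 : (2 : ℝ) ≤ M := by exact_mod_cast (le_trans hd hdM)
  obtain ⟨x, hx⟩ : ∃ x, x = Real.log M := ⟨_, rfl⟩
  have hx0 : 0 < x := by
    rw [hx]
    exact Real.log_pos (by linarith)
  rw [← hx]
  rcases le_total x 100 with hx100 | hx100
  · calc gridRatio d M ≤ 1 := h1
      _ ≤ ENNReal.ofReal 3 * ENNReal.ofReal 0.669 := by
          rw [← ENNReal.ofReal_mul (by norm_num), ← ENNReal.ofReal_one]
          exact ENNReal.ofReal_le_ofReal (by norm_num)
      _ ≤ ENNReal.ofReal (1 + 200 / x) * steinerRatio d := by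
          refine mul_le_mul' (ENNReal.ofReal_le_ofReal ?_) (ratio_ge d)
          have : 2 ≤ 200 / x := by
            rw [le_div_iff₀ hx0]
            linarith
          linarith
  · obtain ⟨K, hK⟩ : ∃ K, K = ⌊x / 12⌋₊ := ⟨_, rfl⟩
    have hK1 : (K : ℝ) ≤ x / 12 := by
      rw [hK]
      exact Nat.floor_le (by positivity)
    have hK2 : x / 12 - 1 < K := by
      rw [hK]
      exact Nat.sub_one_lt_floor _
    have hK3 : x / 14 ≤ K := by linarith
    have hKpos : 1 ≤ K := by
      have : (1 : ℝ) < (K : ℝ) := by linarith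
      exact_mod_cast this.le
    have hMx : (M : ℝ) = exp x := by
      rw [hx, Real.exp_log (by linarith)]
    obtain ⟨δ, hδ⟩ : ∃ δ, δ = √d * (4 * exp (3 * K)) / M := ⟨_, rfl⟩
    have hsd : √(d : ℝ) ≤ exp (x / 2) := by
      rw [Real.sqrt_le_left (by positivity), ← Real.exp_nat_mul]
      have e : ((2 : ℕ) : ℝ) * (x / 2) = x := by
        push_cast
        ring
      rw [e, ← hMx]
      exact_mod_cast hdM
    have hδ1 : δ ≤ 4 * exp (-(x / 4)) := by
      rw [hδ, hMx, div_le_iff₀ (exp_pos x)]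
      have e1 : exp (3 * (K : ℝ)) ≤ exp (x / 4) := Real.exp_le_exp.2 (by linarith)
      have e2 : 4 * exp (-(x / 4)) * exp x = exp (x / 2) * (4 * exp (x / 4)) := by
        rw [mul_assoc, ← Real.exp_add, mul_left_comm, ← Real.exp_add]
        congr 2
        ring
      rw [e2]
      exact mul_le_mul hsd (by linarith) (by positivity) (by positivity)
    have hexp : 40 * x ≤ exp (x / 4) := by
      have e1 := Real.pow_div_factorial_le_exp (x / 4) (by positivity) 4
      have e2 : 40 * x ≤ (x / 4) ^ 4 / (Nat.factorial 4 : ℝ) := by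
        have : (Nat.factorial 4 : ℝ) = 24 := by norm_num [Nat.factorial]
        rw [this]
        have hx3 : (100 : ℝ) ^ 3 ≤ x ^ 3 := pow_le_pow_left₀ (by norm_num) hx100 3
        nlinarith
      linarith
    have hδ2 : 10 * δ ≤ 1 / x := by
      have e1 : exp (-(x / 4)) ≤ 1 / (40 * x) := by
        rw [Real.exp_neg, ← one_div]
        exact one_div_le_one_div_of_le (by positivity) hexp
      have e2 : 40 * (1 / (40 * x)) = 1 / x := by
        field_simp
      linarith
    have hδ0 : 0 ≤ δ := by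
      rw [hδ]
      positivity
    have hx1 : 1 / x ≤ 1 / 100 := one_div_le_one_div_of_le (by norm_num) hx100
    have hU := hUPB d M K c (by omega) (by omega) hKpos (by rw [← hδ]; linarith)
      (by linarith) (le_of_eq hcr.symm)
    rw [← hδ] at hU
    rw [hcr]
    refine le_trans ?_ (mul_le_mul' le_rfl hU)
    rw [← ENNReal.ofReal_mul (by positivity)]
    apply ENNReal.ofReal_le_ofReal
    have hKr : (0 : ℝ) < K := by exact_mod_cast hKpos
    have hden : 0 < 1 + 4 / (K : ℝ) := by positivity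
    rw [mul_div_assoc', le_div_iff₀ hden]
    have h4K : 4 / (K : ℝ) ≤ 56 / x := by
      rw [div_le_div_iff₀ hKr hx0]
      linarith
    have key : 1 + 4 / (K : ℝ) ≤ (1 + 200 / x) * (1 - 10 * δ) := by
      have e1 : (1 + 200 / x) * (1 - 1 / x) ≤ (1 + 200 / x) * (1 - 10 * δ) :=
        mul_le_mul_of_nonneg_left (by linarith) (by positivity)
      have e2 : (1 + 200 / x) * (1 - 1 / x) = 1 + 199 * (1 / x) - 200 * (1 / x) * (1 / x) := by
        ring
      have e3 : 200 * (1 / x) * (1 / x) ≤ 2 * (1 / x) := by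
        have : 0 < 1 / x := by positivity
        nlinarith
      have e4 : 56 / x = 56 * (1 / x) := by ring
      have : 0 < 1 / x := by positivity
      linarith
    calc c * (1 + 4 / (K : ℝ)) ≤ c * ((1 + 200 / x) * (1 - 10 * δ)) :=
          mul_le_mul_of_nonneg_left key (by linarith)
      _ = (1 + 200 / x) * (c * (1 - 10 * δ)) := by ring

end Pool.Agent.Helper60.SG
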